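import Pool.Agent.MP_c1891a_nt.H43.Spec

/-
Representation of a torsion point on a subgroup of dimension one or two.
-/

namespace Pool.Agent.MP_c1891a_nt.H43

lemma rep_ideal (S : ℤ → Prop) (N : ℕ) (hN : 0 < N) (h0 : S N)
    (hs : ∀ a b t, S a → S b → S (a - b * t)) :
    ∃ g : ℕ, 0 < g ∧ S g ∧ ∀ κ, S κ → (g : ℤ) ∣ κ := by
  classical
  have ex : ∃ g : ℕ, 0 < g ∧ S g := ⟨N, hN, h0⟩
  obtain ⟨hg, hS⟩ := Nat.find_spec ex
  refine ⟨Nat.find ex, hg, hS, fun κ hκ => ?_⟩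
  set g := Nat.find ex with hgd
  have g0 : (0 : ℤ) < g := by exact_mod_cast hg
  have h1 : S (κ % g) := by
    rw [Int.emod_def]
    exact hs _ _ _ hκ hS
  have h2 := Int.emod_nonneg κ g0.ne'
  have h3 := Int.emod_lt_of_pos κ g0
  by_contra hd
  have h4 : κ % g ≠ 0 := fun k => hd (Int.dvd_of_emod_eq_zero k)
  refine Nat.find_min ex (m := (κ % g).toNat) (by omega) ⟨by omega, ?_⟩
  rwa [Int.toNat_of_nonneg h2]

lemma rep_prim {d : ℕ} {v : Fin d → ℤ} (hv : ∀ m : ℤ, (∀ i, m ∣ v i) → m ∣ 1) (m s : ℤ)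
    (h : ∀ i, m ∣ s * v i) : m ∣ s := by
  have h1 : Finset.univ.gcd v ∣ 1 := hv _ fun i => Finset.gcd_dvd (Finset.mem_univ i)
  have h2 : m ∣ Finset.univ.gcd fun i => s * v i := Finset.dvd_gcd fun i _ => h i
  rw [Finset.gcd_mul_left] at h2
  have h3 : normalize s * Finset.univ.gcd v ∣ normalize s * 1 := mul_dvd_mul_left _ h1
  rw [mul_one] at h3
  exact dvd_normalize_iff.1 (h2.trans h3)

lemma rep_lift {N n : ℕ} (hN : 0 < N) (hn : n ∣ N) {b : ℤ} (hb : IsCoprime (n : ℤ) b) :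
    ∃ β : ℕ, Nat.Coprime β N ∧ (n : ℤ) ∣ b - β := by
  have : NeZero N := ⟨hN.ne'⟩
  obtain ⟨u, hu⟩ := (ZMod.coe_int_isUnit_iff_isCoprime b n).2 hb
  obtain ⟨U, hU⟩ := ZMod.unitsMap_surjective hn u
  refine ⟨(U : ZMod N).val, ZMod.val_coe_unit_coprime U, ?_⟩
  rw [← ZMod.intCast_eq_intCast_iff_dvd_sub, ← hu, ← hU, ZMod.unitsMap_val]
  simp

theorem sRep1 : SRep1 := by
  intro d N hN e he v hv h κ hκ
  obtain ⟨g, g0, ⟨b, hb⟩, hg⟩ := rep_ideal (fun κ => ∃ β : ℤ, ∀ i, (N : ℤ) ∣ κ * e i - β * v i)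
    N hN ⟨0, fun i => by simp⟩ (fun a b t ⟨x, hx⟩ ⟨y, hy⟩ => ⟨x - y * t, fun i => by
      have := dvd_sub (hx i) ((hy i).mul_right t)
      exact this.trans (dvd_of_eq (by ring))⟩)
  have gN : g ∣ N := by exact_mod_cast hg N ⟨0, fun i => by simp⟩
  obtain ⟨n, rfl⟩ := gN
  have g1 : (g : ℤ) ≠ 0 := by exact_mod_cast g0.ne'
  have gd : (g : ℤ) ∣ ((g * n : ℕ) : ℤ) := by simp
  obtain ⟨b, rfl⟩ : (g : ℤ) ∣ b := rep_prim hv _ _ fun i => by
    have := dvd_sub (dvd_mul_right (g : ℤ) (e i)) (gd.trans (hb i))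
    simpa using this
  have hn : ∀ i, (n : ℤ) ∣ e i - b * v i := fun i => by
    have := hb i
    rw [Nat.cast_mul, mul_assoc, ← mul_sub] at this
    exact (mul_dvd_mul_iff_left g1).1 this
  obtain ⟨t, rfl⟩ := hg κ ⟨h, fun i => by simpa using (hκ i).neg_right⟩
  have hh : ((g * n : ℕ) : ℤ) ∣ h - t * (g * b) := rep_prim hv _ _ fun i => by
    have := dvd_add (hκ i) ((hb i).mul_left t)
    exact this.trans (dvd_of_eq (by ring))
  have gh : (g : ℤ) ∣ h := by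
    have := dvd_add (gd.trans hh) ((dvd_mul_right (g : ℤ) b).mul_left t)
    simpa using this
  have cop : IsCoprime (n : ℤ) b := by
    rw [Int.isCoprime_iff_gcd_eq_one]
    set q := Int.gcd (n : ℤ) b with hq
    have q1 : (q : ℤ) ∣ n := Int.gcd_dvd_left _ _
    have q2 : (q : ℤ) ∣ b := Int.gcd_dvd_right _ _
    have q3 : ∀ i, (q : ℤ) ∣ e i := fun i => by
      have := dvd_add (q1.trans (hn i)) (q2.mul_right (v i))
      simpa using this
    obtain ⟨r, hr⟩ := q1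
    have n0 : (n : ℤ) ≠ 0 := by
      have : n ≠ 0 := by rintro rfl; simp at hN
      exact_mod_cast this
    have r0 : (g : ℤ) * r ≠ 0 := mul_ne_zero g1 (by rintro rfl; simp at hr; omega)
    have e1 : ((g * n : ℕ) : ℤ) = g * r * q := by push_cast; rw [hr]; ring
    have := he (g * r) fun i => by rw [e1]; exact mul_dvd_mul_left _ (q3 i)
    rw [e1] at this
    nth_rw 2 [← mul_one ((g : ℤ) * r)] at this
    have := (mul_dvd_mul_iff_left r0).1 this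
    exact Nat.eq_one_of_dvd_one (by exact_mod_cast this)
  obtain ⟨β, hβ, c, hc⟩ := rep_lift hN (dvd_mul_left n g) cop
  choose k hk using hn
  refine ⟨g, β, fun i => k i + c * v i, g0, dvd_mul_right _ _, gh, hβ, fun i => ?_⟩
  rw [Nat.mul_div_cancel_left n g0]
  linear_combination hk i + v i * hc

theorem sRep2 : SRep2 := by
  intro N hN e v w hp a₁ a₂ b₁ b₂ κ₁ κ₂ ha hb
  obtain ⟨g, g0, ⟨x, y, hx⟩, hg⟩ := rep_ideal
    (fun κ => ∃ x y : ℤ, ∀ i, (N : ℤ) ∣ κ * e i - (x * v i + y * w i))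
    N hN ⟨0, 0, fun i => by simp⟩
    (fun a b t ⟨x, y, hx⟩ ⟨x', y', hy⟩ => ⟨x - x' * t, y - y' * t, fun i => by
      have := dvd_sub (hx i) ((hy i).mul_right t)
      exact this.trans (dvd_of_eq (by ring))⟩)
  have gN : g ∣ N := by exact_mod_cast hg N ⟨0, 0, fun i => by simp⟩
  obtain ⟨n, rfl⟩ := gN
  have g1 : (g : ℤ) ≠ 0 := by exact_mod_cast g0.ne'
  have gd : (g : ℤ) ∣ ((g * n : ℕ) : ℤ) := by simp
  obtain ⟨⟨x, rfl⟩, ⟨y, rfl⟩⟩ := hp g x y fun i => by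
    have := dvd_sub (dvd_mul_right (g : ℤ) (e i)) (gd.trans (hx i))
    simpa using this
  have hn : ∀ i, (n : ℤ) ∣ e i - (x * v i + y * w i) := fun i => by
    have := hx i
    rw [Nat.cast_mul, mul_assoc, mul_assoc, ← mul_add, ← mul_sub] at this
    exact (mul_dvd_mul_iff_left g1).1 this
  have key : ∀ a a' κ : ℤ, (∀ i, ((g * n : ℕ) : ℤ) ∣ a * v i + a' * w i - κ * e i) →
      ∃ t c c' : ℤ, a = g * (t * x + n * c) ∧ a' = g * (t * y + n * c') := fun a a' κ h => by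
    obtain ⟨t, rfl⟩ := hg κ ⟨a, a', fun i => by simpa using (h i).neg_right⟩
    obtain ⟨⟨c, hc⟩, ⟨c', hc'⟩⟩ := hp ((g * n : ℕ) : ℤ) (a - t * (g * x)) (a' - t * (g * y))
      fun i => by
        have := dvd_add (h i) ((hx i).mul_left t)
        exact this.trans (dvd_of_eq (by ring))
    push_cast at hc hc'
    exact ⟨t, c, c', by linear_combination hc, by linear_combination hc'⟩
  obtain ⟨t₁, c₁, c₂, h1, h2⟩ := key _ _ _ ha
  obtain ⟨t₂, d₁, d₂, h3, h4⟩ := key _ _ _ hb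
  choose k hk using hn
  refine ⟨g, x, y, _, _, _, _, k, g0, dvd_mul_right _ _, fun i => ?_, h1, h2, h3, h4, ?_, ?_⟩
  · rw [Nat.mul_div_cancel_left n g0]
    linear_combination hk i
  · rw [Nat.mul_div_cancel_left n g0]
    exact ⟨d₁ * y - d₂ * x, by ring⟩
  · refine ⟨t₁ * x * d₂ + c₁ * t₂ * y + n * c₁ * d₂ - t₁ * y * d₁ - c₂ * t₂ * x - n * c₂ * d₁, ?_⟩
    rw [h1, h2, h3, h4]
    push_cast
    ring

end Pool.Agent.MP_c1891a_nt.H43
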